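import Mathlib

/-!
# Degree spread in two-coloured complete graphs: the identity fails just above the Ramsey number

For graphs `G`, `H` of minimum degree at least `δ` and every `n ≥ r(G,H)` we prove
`Φ_n(G,H) ≤ n - 1 - δ`.  Hence `Φ_n(G,H) ≠ r(G,H) - 2` for all `n` with
`r(G,H) ≤ n ≤ r(G,H) + δ - 2`; with `δ = 2` this includes `n = r(G,H)`, e.g. `G = H = K_3`, `n = 6`.
So the proposed identity (Q1) is false.
-/

set_option autoImplicit false

namespace Pool.Agent.Results.MP_f2857b_co.DegreeWindow

open SimpleGraph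

/-- A red/blue colouring of the complete graph on `Fin n` is given by its red graph `c`; the blue
graph is the complement `cᶜ`.  `Arrows G H n`: every colouring has a red copy of `G` or a blue
copy of `H`. -/
def Arrows {V W : Type} (G : SimpleGraph V) (H : SimpleGraph W) (n : ℕ) : Prop :=
  ∀ c : SimpleGraph (Fin n), G.IsContained c ∨ H.IsContained cᶜ

/-- The Ramsey number `r(G,H)`. -/
noncomputable def ramseyNumber {V W : Type} (G : SimpleGraph V) (H : SimpleGraph W) : ℕ :=
  sInf {n | Arrows G H n}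

/-- The red degree of the vertex `v`. -/
noncomputable def redDegree {n : ℕ} (c : SimpleGraph (Fin n)) (v : Fin n) : ℕ :=
  (c.neighborSet v).ncard

/-- The degree spread of a vertex set: maximum minus minimum red degree. -/
noncomputable def spread {n : ℕ} (c : SimpleGraph (Fin n)) (X : Set (Fin n)) : ℕ :=
  sSup (redDegree c '' X) - sInf (redDegree c '' X)

/-- `X` is the vertex set of a red copy of `G` or of a blue copy of `H`. -/
def Admissible {V W : Type} (G : SimpleGraph V) (H : SimpleGraph W) {n : ℕ}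
    (c : SimpleGraph (Fin n)) (X : Set (Fin n)) : Prop :=
  (∃ f : Copy G c, Set.range (⇑f) = X) ∨ (∃ f : Copy H cᶜ, Set.range (⇑f) = X)

/-- The degree spread of a colouring: the minimum spread of an admissible set. -/
noncomputable def colouringSpread {V W : Type} (G : SimpleGraph V) (H : SimpleGraph W) {n : ℕ}
    (c : SimpleGraph (Fin n)) : ℕ :=
  sInf (spread c '' {X | Admissible G H c X})

/-- `Φ_n(G,H)`: the maximum degree spread over all colourings. -/
noncomputable def Phi {V W : Type} (n : ℕ) (G : SimpleGraph V) (H : SimpleGraph W) : ℕ :=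
  sSup (Set.range fun c : SimpleGraph (Fin n) => colouringSpread G H c)

/-- The standing assumptions: a finite graph with at least one edge and no isolated vertex. -/
def Good {V : Type} (G : SimpleGraph V) : Prop :=
  Finite V ∧ (∃ u v, G.Adj u v) ∧ ∀ v, ∃ w, G.Adj v w

/-- finite Ramsey for two colours, finset version. -/
theorem ramsey (a b : ℕ) : ∃ N : ℕ, ∀ (V : Type) (Γ : V → V → Prop), (∀ x y, Γ x y → Γ y x) →
    ∀ A : Finset V, N ≤ A.card →
    (∃ Q ⊆ A, Q.card = a ∧ ∀ x ∈ Q, ∀ y ∈ Q, x ≠ y → Γ x y) ∨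
    (∃ Q ⊆ A, Q.card = b ∧ ∀ x ∈ Q, ∀ y ∈ Q, x ≠ y → ¬ Γ x y) := by
  classical
  induction a generalizing b with
  | zero =>
    exact ⟨0, fun V Γ _ A _ => Or.inl ⟨∅, Finset.empty_subset _, by simp, by simp⟩⟩
  | succ a iha =>
    induction b with
    | zero =>
      exact ⟨0, fun V Γ _ A _ => Or.inr ⟨∅, Finset.empty_subset _, by simp, by simp⟩⟩
    | succ b ihb =>
      obtain ⟨N1, h1⟩ := iha (b + 1)
      obtain ⟨N2, h2⟩ := ihb
      refine ⟨N1 + N2 + 1, ?_⟩
      intro V Γ hs A hA
      have hne : A.Nonempty := by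
        rw [← Finset.card_pos]; omega
      obtain ⟨x, hx⟩ := hne
      have hcard := Finset.card_filter_add_card_filter_not (s := A.erase x) (fun y => Γ x y)
      rw [Finset.card_erase_of_mem hx] at hcard
      have hcase : N1 ≤ ((A.erase x).filter (fun y => Γ x y)).card ∨
          N2 ≤ ((A.erase x).filter (fun y => ¬ Γ x y)).card := by omega
      rcases hcase with hc | hc
      · rcases h1 V Γ hs _ hc with ⟨Q, hQ, hQc, hQp⟩ | ⟨Q, hQ, hQc, hQp⟩
        · left
          have hxQ : x ∉ Q := by
            intro h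
            have := hQ h
            simp at this
          refine ⟨insert x Q, ?_, ?_, ?_⟩
          · intro y hy
            rcases Finset.mem_insert.mp hy with rfl | hy
            · exact hx
            · exact Finset.mem_of_mem_erase (Finset.mem_filter.mp (hQ hy)).1
          · rw [Finset.card_insert_of_notMem hxQ, hQc]
          · intro u hu v hv huv
            rcases Finset.mem_insert.mp hu with rfl | hu'
            · rcases Finset.mem_insert.mp hv with rfl | hv
              · exact absurd rfl huv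
              · exact (Finset.mem_filter.mp (hQ hv)).2
            · rcases Finset.mem_insert.mp hv with rfl | hv
              · exact hs _ _ (Finset.mem_filter.mp (hQ hu')).2
              · exact hQp u hu' v hv huv
        · right
          exact ⟨Q, fun y hy => Finset.mem_of_mem_erase (Finset.mem_filter.mp (hQ hy)).1, hQc, hQp⟩
      · rcases h2 V Γ hs _ hc with ⟨Q, hQ, hQc, hQp⟩ | ⟨Q, hQ, hQc, hQp⟩
        · left
          exact ⟨Q, fun y hy => Finset.mem_of_mem_erase (Finset.mem_filter.mp (hQ hy)).1, hQc, hQp⟩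
        · right
          have hxQ : x ∉ Q := by
            intro h
            have := hQ h
            simp at this
          refine ⟨insert x Q, ?_, ?_, ?_⟩
          · intro y hy
            rcases Finset.mem_insert.mp hy with rfl | hy
            · exact hx
            · exact Finset.mem_of_mem_erase (Finset.mem_filter.mp (hQ hy)).1
          · rw [Finset.card_insert_of_notMem hxQ, hQc]
          · intro u hu v hv huv
            rcases Finset.mem_insert.mp hu with rfl | hu'
            · rcases Finset.mem_insert.mp hv with rfl | hv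
              · exact absurd rfl huv
              · exact (Finset.mem_filter.mp (hQ hv)).2
            · rcases Finset.mem_insert.mp hv with rfl | hv
              · exact fun h => (Finset.mem_filter.mp (hQ hu')).2 (hs _ _ h)
              · exact hQp u hu' v hv huv

theorem copy_of_clique {V : Type} [Finite V] (G : SimpleGraph V) {n : ℕ} (c : SimpleGraph (Fin n))
    (Q : Finset (Fin n)) (hQ : Q.card = Nat.card V) (h : ∀ x ∈ Q, ∀ y ∈ Q, x ≠ y → c.Adj x y) :
    G.IsContained c := by
  classical
  have : Fintype V := Fintype.ofFinite V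
  have hc : Fintype.card V = Fintype.card Q := by
    rw [Fintype.card_coe, hQ, Nat.card_eq_fintype_card]
  let e := Fintype.equivOfCardEq hc
  refine ⟨⟨⟨fun v => (e v : Fin n), ?_⟩, ?_⟩⟩
  · intro a b hab
    refine h _ (e a).2 _ (e b).2 ?_
    intro hh
    exact hab.ne (e.injective (Subtype.ext hh))
  · intro a b hab
    exact e.injective (Subtype.ext hab)

theorem arrows_mono {V W : Type} (G : SimpleGraph V) (H : SimpleGraph W) {m n : ℕ} (hmn : m ≤ n)
    (h : Arrows G H m) : Arrows G H n := by
  intro c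
  rcases h (c.comap (Fin.castLE hmn)) with hG | hH
  · left
    refine hG.trans ⟨⟨⟨Fin.castLE hmn, ?_⟩, Fin.castLE_injective hmn⟩⟩
    intro a b hab
    exact hab
  · right
    refine hH.trans ⟨⟨⟨Fin.castLE hmn, ?_⟩, Fin.castLE_injective hmn⟩⟩
    intro a b hab
    rw [compl_adj] at hab ⊢
    refine ⟨fun hh => hab.1 (Fin.castLE_injective hmn hh), fun hh => hab.2 ?_⟩
    exact hh

theorem arrows_nonempty {V W : Type} [Finite V] [Finite W] (G : SimpleGraph V)
    (H : SimpleGraph W) : {n | Arrows G H n}.Nonempty := by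
  classical
  obtain ⟨N, hN⟩ := ramsey (Nat.card V) (Nat.card W)
  refine ⟨N, fun c => ?_⟩
  rcases hN (Fin N) c.Adj (fun x y h => h.symm) Finset.univ (by simp) with ⟨Q, -, h1, h2⟩ | ⟨Q, -, h1, h2⟩
  · exact Or.inl (copy_of_clique G c Q h1 h2)
  · refine Or.inr (copy_of_clique H cᶜ Q h1 ?_)
    intro x hx y hy hxy
    rw [compl_adj]
    exact ⟨hxy, h2 x hx y hy hxy⟩

theorem arrows_of_le {V W : Type} [Finite V] [Finite W] (G : SimpleGraph V)
    (H : SimpleGraph W) {n : ℕ} (h : ramseyNumber G H ≤ n) : Arrows G H n :=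
  arrows_mono G H h (Nat.sInf_mem (arrows_nonempty G H))

/-- The Ramsey number is at least the number of vertices of `G` if `H` has an edge. -/
theorem card_le_ramsey {V W : Type} [Finite V] [Finite W] (G : SimpleGraph V)
    (H : SimpleGraph W) (hH : ∃ u v, H.Adj u v) : Nat.card V ≤ ramseyNumber G H := by
  classical
  have hA : Arrows G H (ramseyNumber G H) := Nat.sInf_mem (arrows_nonempty G H)
  rcases hA ⊤ with ⟨⟨f⟩⟩ | ⟨⟨f⟩⟩
  · have := Nat.card_le_card_of_injective _ f.injective
    simpa using this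
  · exfalso
    obtain ⟨u, v, huv⟩ := hH
    have := f.toHom.map_adj huv
    simp at this

theorem degree_le {n : ℕ} (c : SimpleGraph (Fin n)) (v : Fin n) : redDegree c v ≤ n - 1 := by
  classical
  have h1 : c.neighborSet v ⊆ ((Finset.univ.erase v : Finset (Fin n)) : Set (Fin n)) := by
    intro w hw
    have : c.Adj v w := hw
    simp [this.ne']
  calc redDegree c v ≤ ((Finset.univ.erase v : Finset (Fin n)) : Set (Fin n)).ncard :=
        Set.ncard_le_ncard h1 (Finset.finite_toSet _)
    _ = n - 1 := by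
        rw [Set.ncard_coe_finset, Finset.card_erase_of_mem (Finset.mem_univ _)]
        simp

theorem degree_compl {n : ℕ} (c : SimpleGraph (Fin n)) (v : Fin n) :
    redDegree c v + redDegree cᶜ v = n - 1 := by
  classical
  have hd : Disjoint (c.neighborSet v) (cᶜ.neighborSet v) := by
    rw [Set.disjoint_left]
    intro w hw hw'
    have h1 : c.Adj v w := hw
    have h2 : cᶜ.Adj v w := hw'
    rw [compl_adj] at h2
    exact h2.2 h1
  have hu : c.neighborSet v ∪ cᶜ.neighborSet v
      = ((Finset.univ.erase v : Finset (Fin n)) : Set (Fin n)) := by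
    ext w
    simp only [Set.mem_union, mem_neighborSet, compl_adj, Finset.coe_erase, Finset.coe_univ,
      Set.mem_sdiff, Set.mem_univ, Set.mem_singleton_iff, true_and]
    constructor
    · rintro (h | h)
      · exact h.ne'
      · exact fun hh => h.1 hh.symm
    · intro h
      by_cases hc : c.Adj v w
      · exact Or.inl hc
      · exact Or.inr ⟨fun hh => h hh.symm, hc⟩
  have h3 := Set.ncard_union_eq hd (Set.toFinite _) (Set.toFinite _)
  rw [hu, Set.ncard_coe_finset, Finset.card_erase_of_mem (Finset.mem_univ _)] at h3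
  simp only [Finset.card_univ, Fintype.card_fin] at h3
  exact h3.symm

theorem degree_copy {V : Type} [Finite V] (G : SimpleGraph V) {n : ℕ} (c : SimpleGraph (Fin n))
    (f : Copy G c) (δ : ℕ) (hδ : ∀ v, δ ≤ (G.neighborSet v).ncard) (v : V) :
    δ ≤ redDegree c (f v) := by
  classical
  refine (hδ v).trans ?_
  have h1 : f '' (G.neighborSet v) ⊆ c.neighborSet (f v) := by
    rintro _ ⟨w, hw, rfl⟩
    exact f.toHom.map_adj hw
  have h2 : (f '' (G.neighborSet v)).ncard = (G.neighborSet v).ncard :=
    Set.ncard_image_of_injective _ f.injective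
  rw [← h2]
  exact Set.ncard_le_ncard h1 (Set.toFinite _)

theorem spread_le {n : ℕ} (c : SimpleGraph (Fin n)) (X : Set (Fin n)) (hX : X.Nonempty) (a b : ℕ)
    (ha : ∀ x ∈ X, a ≤ redDegree c x) (hb : ∀ x ∈ X, redDegree c x ≤ b) :
    spread c X ≤ b - a := by
  have h1 : sSup (redDegree c '' X) ≤ b := by
    refine csSup_le (hX.image _) ?_
    rintro _ ⟨x, hx, rfl⟩
    exact hb x hx
  have h2 : a ≤ sInf (redDegree c '' X) := by
    refine le_csInf (hX.image _) ?_
    rintro _ ⟨x, hx, rfl⟩
    exact ha x hx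
  unfold spread
  omega

/-- The upper bound for `Φ_n` in terms of the minimum degree. -/
theorem Phi_le {V W : Type} (G : SimpleGraph V) (H : SimpleGraph W) (hG : Good G) (hH : Good H)
    (δ : ℕ) (hδG : ∀ v, δ ≤ (G.neighborSet v).ncard) (hδH : ∀ v, δ ≤ (H.neighborSet v).ncard)
    (n : ℕ) (hn : ramseyNumber G H ≤ n) : Phi n G H ≤ n - 1 - δ := by
  classical
  have := hG.1
  have := hH.1
  unfold Phi
  refine csSup_le (Set.range_nonempty _) ?_
  rintro _ ⟨c, rfl⟩
  unfold colouringSpread
  rcases arrows_of_le G H hn c with ⟨⟨f⟩⟩ | ⟨⟨f⟩⟩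
  · have hm : spread c (Set.range (⇑f)) ∈ spread c '' {X | Admissible G H c X} :=
      Set.mem_image_of_mem _ (Or.inl ⟨f, rfl⟩)
    refine (Nat.sInf_le hm).trans ?_
    obtain ⟨u, v, huv⟩ := hG.2.1
    have hne : (Set.range (⇑f)).Nonempty := Set.nonempty_of_mem (Set.mem_range_self u)
    refine spread_le c (Set.range (⇑f)) hne δ (n - 1) ?_ ?_
    · rintro _ ⟨x, rfl⟩
      exact degree_copy G c f δ hδG x
    · rintro _ ⟨x, rfl⟩
      exact degree_le c _
  · have hm : spread c (Set.range (⇑f)) ∈ spread c '' {X | Admissible G H c X} :=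
      Set.mem_image_of_mem _ (Or.inr ⟨f, rfl⟩)
    refine (Nat.sInf_le hm).trans ?_
    obtain ⟨u, v, huv⟩ := hH.2.1
    have hne : (Set.range (⇑f)).Nonempty := Set.nonempty_of_mem (Set.mem_range_self u)
    have := spread_le c (Set.range (⇑f)) hne 0 (n - 1 - δ) (fun _ _ => Nat.zero_le _) ?_
    · simpa using this
    · rintro _ ⟨x, rfl⟩
      have h1 := degree_copy H cᶜ f δ hδH x
      have h2 := degree_compl c (f x)
      omega

theorem Phi_ne {V W : Type} (G : SimpleGraph V) (H : SimpleGraph W) (hG : Good G) (hH : Good H)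
    (δ : ℕ) (hδ : 2 ≤ δ) (hδG : ∀ v, δ ≤ (G.neighborSet v).ncard)
    (hδH : ∀ v, δ ≤ (H.neighborSet v).ncard)
    (n : ℕ) (hn : ramseyNumber G H ≤ n) (hn' : n + 2 ≤ ramseyNumber G H + δ) :
    Phi n G H < ramseyNumber G H - 2 := by
  classical
  have hV := hG.1
  have hW := hH.1
  have h1 := Phi_le G H hG hH δ hδG hδH n hn
  have h2 : 3 ≤ ramseyNumber G H := by
    refine le_trans ?_ (card_le_ramsey G H hH.2.1)
    obtain ⟨u, v, huv⟩ := hG.2.1
    have h3 : G.neighborSet u ⊆ {u}ᶜ := by
      intro w hw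
      have : G.Adj u w := hw
      simp [this.ne']
    have h4 := (hδG u).trans (Set.ncard_le_ncard h3 (Set.toFinite _))
    have h5 := Set.ncard_add_ncard_compl ({u} : Set V)
    rw [Set.ncard_singleton] at h5
    omega
  omega

/-- Main result.  (1) `Φ_n(G,H) ≤ n-1-δ` for all `n ≥ r(G,H)` if all degrees in `G` and `H` are at
least `δ`.  (2) If moreover `δ ≥ 2`, then `Φ_n(G,H) < r(G,H)-2` for all `n` with
`r(G,H) ≤ n ≤ r(G,H)+δ-2`.  (3) Q1 is false, already for `G = H = K_3` and `n = r(K_3,K_3)`. -/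
theorem result :
    (∀ (V W : Type) (G : SimpleGraph V) (H : SimpleGraph W), Good G → Good H → ∀ δ : ℕ,
      (∀ v, δ ≤ (G.neighborSet v).ncard) → (∀ v, δ ≤ (H.neighborSet v).ncard) →
      ∀ n, ramseyNumber G H ≤ n →
        Phi n G H ≤ n - 1 - δ ∧
        (2 ≤ δ → n + 2 ≤ ramseyNumber G H + δ → Phi n G H < ramseyNumber G H - 2)) ∧
    (Good (⊤ : SimpleGraph (Fin 3)) ∧
      Phi (ramseyNumber (⊤ : SimpleGraph (Fin 3)) (⊤ : SimpleGraph (Fin 3)))
        (⊤ : SimpleGraph (Fin 3)) (⊤ : SimpleGraph (Fin 3)) ≠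
      ramseyNumber (⊤ : SimpleGraph (Fin 3)) (⊤ : SimpleGraph (Fin 3)) - 2) ∧
    ¬ (∀ (V W : Type) (G : SimpleGraph V) (H : SimpleGraph W), Good G → Good H →
      ∀ n, ramseyNumber G H ≤ n → Phi n G H = ramseyNumber G H - 2) := by
  have h3 : Good (⊤ : SimpleGraph (Fin 3)) := by
    refine ⟨inferInstance, ⟨0, 1, by decide⟩, ?_⟩
    intro v
    exact ⟨v + 1, by revert v; decide⟩
  have hd : ∀ v, 2 ≤ ((⊤ : SimpleGraph (Fin 3)).neighborSet v).ncard := by
    intro v
    have h : (⊤ : SimpleGraph (Fin 3)).neighborSet v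
        = ((Finset.univ.erase v : Finset (Fin 3)) : Set (Fin 3)) := by
      ext w
      simp [eq_comm]
    rw [h, Set.ncard_coe_finset, Finset.card_erase_of_mem (Finset.mem_univ _)]
    simp
  have key : Phi (ramseyNumber (⊤ : SimpleGraph (Fin 3)) (⊤ : SimpleGraph (Fin 3)))
        (⊤ : SimpleGraph (Fin 3)) (⊤ : SimpleGraph (Fin 3)) ≠
      ramseyNumber (⊤ : SimpleGraph (Fin 3)) (⊤ : SimpleGraph (Fin 3)) - 2 :=
    (Phi_ne _ _ h3 h3 2 le_rfl hd hd _ le_rfl le_rfl).ne
  refine ⟨?_, ⟨h3, key⟩, ?_⟩
  · intro V W G H hG hH δ hδG hδH n hn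
    exact ⟨Phi_le G H hG hH δ hδG hδH n hn,
      fun hδ hn' => Phi_ne G H hG hH δ hδ hδG hδH n hn hn'⟩
  · intro h
    exact key (h _ _ _ _ h3 h3 _ le_rfl)

end Pool.Agent.Results.MP_f2857b_co.DegreeWindow
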